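import Mathlib

/-!
Abstract part: a group acting on a complete linear order with enough bump elements has only
normal boomerang subgroups.
-/

open Set
open scoped commutatorElement

namespace Pool.Agent.P.MP_bd6a20_al

section Supp

variable {G X : Type*} [Group G] [MulAction G X]

/-- The elements that fix every point outside `S`. -/
def rist (G : Type*) {X : Type*} [Group G] [MulAction G X] (S : Set X) : Subgroup G where
  carrier := {g | ∀ x, x ∉ S → g • x = x}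
  one_mem' := fun x _ => one_smul G x
  mul_mem' := fun {a b} ha hb x hx => by rw [mul_smul, hb x hx, ha x hx]
  inv_mem' := fun {a} ha x hx => by rw [inv_smul_eq_iff, ha x hx]

lemma mem_rist {S : Set X} {g : G} : g ∈ rist G S ↔ ∀ x, x ∉ S → g • x = x := Iff.rfl

lemma rist_mono {S T : Set X} (h : S ⊆ T) : rist G S ≤ rist G T :=
  fun _ hg x hx => hg x (fun hxS => hx (h hxS))

lemma rist_smul_mem {S : Set X} {g : G} (hg : g ∈ rist G S) {x : X} (hx : x ∈ S) : g • x ∈ S := by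
  by_contra h
  have h1 := hg _ h
  rw [smul_left_cancel_iff] at h1
  exact h (by rwa [h1])

lemma conj_mem_rist {S T : Set X} {g h : G} (hg : g ∈ rist G S) (hST : ∀ x ∈ S, h • x ∈ T) :
    h * g * h⁻¹ ∈ rist G T := by
  intro x hx
  have : h⁻¹ • x ∉ S := fun hh => hx (by simpa using hST _ hh)
  rw [mul_smul, mul_smul, hg _ this, smul_inv_smul]

lemma commute_of_disjoint [FaithfulSMul G X] {S T : Set X} {g h : G} (hg : g ∈ rist G S)
    (hh : h ∈ rist G T) (hST : ∀ x ∈ S, x ∉ T) : Commute g h := by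
  apply eq_of_smul_eq_smul (α := X)
  intro x
  rw [mul_smul, mul_smul]
  by_cases hxS : x ∈ S
  · rw [hh x (hST x hxS), hh _ (hST _ (rist_smul_mem hg hxS))]
  · rw [hg x hxS]
    by_cases hxT : x ∈ T
    · rw [hg _ (fun hS => hST _ hS (rist_smul_mem hh hxT))]
    · rw [hh x hxT, hg x hxS]

lemma commute_of_fix [FaithfulSMul G X] {S : Set X} {g h : G} (hg : g ∈ rist G S)
    (hh : ∀ x ∈ S, h • x = x) : Commute g h :=
  commute_of_disjoint (T := Sᶜ) hg (fun x hx => hh x (by simpa using hx)) (fun x hx => by simpa)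

lemma commutator_mul_mul {a b m m' : G} (h1 : Commute a m') (h2 : Commute m b)
    (h3 : Commute m m') : ⁅a * m, b * m'⁆ = ⁅a, b⁆ := by
  have e1 : m * b = b * m := h2.eq
  have e2 : m * m' = m' * m := h3.eq
  have e3 : m' * a⁻¹ = a⁻¹ * m' := h1.inv_left.eq.symm
  calc ⁅a * m, b * m'⁆ = a * (m * b) * m' * m⁻¹ * a⁻¹ * m'⁻¹ * b⁻¹ := by
        simp only [commutatorElement_def, mul_inv_rev, mul_assoc]
    _ = a * b * (m * m') * m⁻¹ * a⁻¹ * m'⁻¹ * b⁻¹ := by rw [e1]; simp only [mul_assoc]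
    _ = a * b * (m' * a⁻¹) * m'⁻¹ * b⁻¹ := by rw [e2]; simp [mul_assoc]
    _ = ⁅a, b⁆ := by rw [e3]; simp [commutatorElement_def, mul_assoc]

/-- Key lemma: a subgroup that contains a positive power of each element supported in `U`
contains all commutators of elements supported in `V`. -/
lemma commutator_le_of_powers [FaithfulSMul G X] {U V W : Set X} {t s : G} (Λ : Subgroup G)
    (hΛ : ∀ g ∈ rist G U, ∃ n : ℕ, 1 ≤ n ∧ g ^ n ∈ Λ)
    (ht : t ∈ rist G U) (hs : s ∈ rist G U) (hVU : V ⊆ U)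
    (hVW : ∀ x ∈ V, x ∉ W) (htV : ∀ x ∈ V, t • x ∈ W) (htW : ∀ x ∈ W, t • x ∈ W)
    (hsV : ∀ x ∈ V, s • x = x) (hsW : ∀ x ∈ W, s • x = t • x) :
    ⁅rist G V, rist G V⁆ ≤ Λ := by
  obtain ⟨j₁, hj₁, htj⟩ := hΛ t ht
  obtain ⟨j₂, hj₂, hsj⟩ := hΛ s hs
  set j := j₁ * j₂ with hj
  have hjpos : 1 ≤ j := Nat.mul_pos hj₁ hj₂
  have hT : t ^ j ∈ Λ := by rw [hj, pow_mul]; exact Λ.pow_mem htj _
  have hS : s ^ j ∈ Λ := by rw [hj, mul_comm, pow_mul]; exact Λ.pow_mem hsj _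
  have htnW : ∀ n : ℕ, ∀ x ∈ W, t ^ n • x ∈ W := by
    intro n
    induction n with
    | zero => intro x hx; simpa using hx
    | succ n ih => intro x hx; rw [pow_succ', mul_smul]; exact htW _ (ih x hx)
  have htnV : ∀ n : ℕ, 1 ≤ n → ∀ x ∈ V, t ^ n • x ∈ W := by
    intro n hn x hx
    obtain ⟨m, rfl⟩ := Nat.exists_eq_add_of_le' hn
    rw [pow_succ, mul_smul]
    exact htnW m _ (htV x hx)
  have hst : ∀ n : ℕ, ∀ x ∈ W, s ^ n • x = t ^ n • x := by
    intro n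
    induction n with
    | zero => intro x _; simp
    | succ n ih =>
      intro x hx
      rw [pow_succ', pow_succ', mul_smul, mul_smul, ih x hx, hsW _ (htnW n x hx)]
  have hconj : ∀ g ∈ rist G W, s ^ j * g * (s ^ j)⁻¹ = t ^ j * g * (t ^ j)⁻¹ := by
    intro g hg
    have hc : Commute g ((t ^ j)⁻¹ * s ^ j) :=
      commute_of_fix hg (fun x hx => by rw [mul_smul, hst j x hx, inv_smul_smul])
    have := hc.eq
    calc s ^ j * g * (s ^ j)⁻¹ = t ^ j * (((t ^ j)⁻¹ * s ^ j) * g) * (s ^ j)⁻¹ := by group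
      _ = t ^ j * g * (t ^ j)⁻¹ := by rw [← this]; group
  have hsf : ∀ f ∈ rist G V, s ^ j * f * (s ^ j)⁻¹ = f := by
    intro f hf
    have hc : Commute f s := commute_of_fix hf hsV
    rw [← (hc.pow_right j).eq]; group
  -- first step
  have step1 : ∀ f ∈ rist G V, f * (t ^ j * f⁻¹ * (t ^ j)⁻¹) ∈ Λ := by
    intro f hf
    obtain ⟨n₁, hn₁, hft⟩ := hΛ (f * t) ((rist G U).mul_mem (rist_mono hVU hf) ht)
    have hdec : ∀ n : ℕ, ∃ w ∈ rist G W, (f * t) ^ (n + 1) * (t ^ (n + 1))⁻¹ = f * w := by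
      intro n
      induction n with
      | zero => exact ⟨1, one_mem _, by simp⟩
      | succ n ih =>
        obtain ⟨w, hw, hw'⟩ := ih
        refine ⟨w * (t ^ (n + 1) * f * (t ^ (n + 1))⁻¹),
          mul_mem hw (conj_mem_rist hf (htnV _ (by omega))), ?_⟩
        rw [← mul_assoc f w, ← hw', pow_succ (f * t) (n + 1), pow_succ t (n + 1)]
        group
    obtain ⟨m, hm⟩ : ∃ m, n₁ * j = m + 1 := ⟨n₁ * j - 1, by
      have := Nat.mul_pos hn₁ hjpos; omega⟩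
    obtain ⟨w, hw, hw'⟩ := hdec m
    have h1 : f * w ∈ Λ := by
      rw [← hw', ← hm]
      refine mul_mem ?_ (inv_mem ?_)
      · rw [pow_mul]; exact pow_mem hft _
      · rw [mul_comm, pow_mul]; exact pow_mem hT _
    have h2 : s ^ j * (f * w) * (s ^ j)⁻¹ ∈ Λ := mul_mem (mul_mem hS h1) (inv_mem hS)
    have h3 : t ^ j * (f * w) * (t ^ j)⁻¹ ∈ Λ := mul_mem (mul_mem hT h1) (inv_mem hT)
    have h4 : s ^ j * (f * w) * (s ^ j)⁻¹ = f * (t ^ j * w * (t ^ j)⁻¹) := by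
      rw [← hconj w hw]
      calc s ^ j * (f * w) * (s ^ j)⁻¹
          = (s ^ j * f * (s ^ j)⁻¹) * (s ^ j * w * (s ^ j)⁻¹) := by group
        _ = _ := by rw [hsf f hf]
    have h5 := mul_mem h2 (inv_mem h3)
    rw [h4] at h5
    convert h5 using 1
    group
  have step2 : ∀ f ∈ rist G V,
      f * (t ^ j * (t ^ j * f⁻¹ * (t ^ j)⁻¹) * (t ^ j)⁻¹) ∈ Λ := by
    intro f hf
    have h1 := mul_mem (mul_mem hS (step1 f hf)) (inv_mem hS)
    have hw : t ^ j * f⁻¹ * (t ^ j)⁻¹ ∈ rist G W := conj_mem_rist (inv_mem hf) (htnV j hjpos)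
    rw [← hconj _ hw]
    convert h1 using 1
    calc f * (s ^ j * (t ^ j * f⁻¹ * (t ^ j)⁻¹) * (s ^ j)⁻¹)
        = (s ^ j * f * (s ^ j)⁻¹) * (s ^ j * (t ^ j * f⁻¹ * (t ^ j)⁻¹) * (s ^ j)⁻¹) := by
          rw [hsf f hf]
      _ = _ := by group
  rw [Subgroup.commutator_le]
  intro f hf g hg
  have hf1 : t ^ j * f⁻¹ * (t ^ j)⁻¹ ∈ rist G W := conj_mem_rist (inv_mem hf) (htnV j hjpos)
  have hg1 : t ^ j * g⁻¹ * (t ^ j)⁻¹ ∈ rist G W := conj_mem_rist (inv_mem hg) (htnV j hjpos)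
  have hg2 : t ^ j * (t ^ j * g⁻¹ * (t ^ j)⁻¹) * (t ^ j)⁻¹ ∈ rist G W :=
    conj_mem_rist hg1 (htnW j)
  have c1 : Commute f (t ^ j * (t ^ j * g⁻¹ * (t ^ j)⁻¹) * (t ^ j)⁻¹) :=
    commute_of_disjoint hf hg2 hVW
  have c2 : Commute (t ^ j * f⁻¹ * (t ^ j)⁻¹) g := (commute_of_disjoint hg hf1 hVW).symm
  have c3 : Commute (t ^ j * f⁻¹ * (t ^ j)⁻¹)
      (t ^ j * (t ^ j * g⁻¹ * (t ^ j)⁻¹) * (t ^ j)⁻¹) :=
    (commute_of_disjoint (inv_mem hf) hg1 hVW).conj _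
  rw [← commutator_mul_mul c1 c2 c3, commutatorElement_def]
  exact mul_mem (mul_mem (mul_mem (step1 f hf) (step2 g hg)) (inv_mem (step1 f hf)))
    (inv_mem (step2 g hg))

/-- The second derived subgroup of the elements supported in `S`. -/
def dd (G : Type*) {X : Type*} [Group G] [MulAction G X] (S : Set X) : Subgroup G :=
  ⁅⁅rist G S, rist G S⁆, ⁅rist G S, rist G S⁆⁆

lemma dd_mono {S T : Set X} (h : S ⊆ T) : dd G S ≤ dd G T :=
  Subgroup.commutator_mono (Subgroup.commutator_mono (rist_mono h) (rist_mono h))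
    (Subgroup.commutator_mono (rist_mono h) (rist_mono h))

lemma conj_mem_dd {S T : Set X} {g h : G} (hg : g ∈ dd G S) (hST : ∀ x ∈ S, h • x ∈ T) :
    h * g * h⁻¹ ∈ dd G T := by
  have hle : (rist G S).map (MulAut.conj h).toMonoidHom ≤ rist G T := by
    rintro _ ⟨g, hg, rfl⟩
    exact conj_mem_rist hg hST
  have : (dd G S).map (MulAut.conj h).toMonoidHom ≤ dd G T := by
    simp only [dd, Subgroup.map_commutator]
    exact Subgroup.commutator_mono (Subgroup.commutator_mono hle hle)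
      (Subgroup.commutator_mono hle hle)
  exact this ⟨g, hg, rfl⟩

/-- Elements of `U` that can be completed to an element of `Δ` by an element supported in `T`. -/
def proj (Δ : Subgroup G) [FaithfulSMul G X] (U T : Set X) (hUT : ∀ x ∈ U, x ∉ T) :
    Subgroup G where
  carrier := {g | g ∈ rist G U ∧ ∃ m ∈ rist G T, g * m ∈ Δ}
  one_mem' := ⟨one_mem _, 1, one_mem _, by simp⟩
  mul_mem' := by
    rintro a b ⟨ha, m, hm, ham⟩ ⟨hb, m', hm', hbm⟩
    refine ⟨mul_mem ha hb, m * m', mul_mem hm hm', ?_⟩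
    have := (commute_of_disjoint hb hm hUT).eq
    convert mul_mem ham hbm using 1
    calc a * b * (m * m') = a * (b * m) * m' := by group
      _ = _ := by rw [this]; group
  inv_mem' := by
    rintro a ⟨ha, m, hm, ham⟩
    refine ⟨inv_mem ha, m⁻¹, inv_mem hm, ?_⟩
    have := (commute_of_disjoint ha hm hUT).eq
    convert inv_mem ham using 1
    rw [this]; group

end Supp

section Order

variable {G X : Type*} [Group G] [MulAction G X] [CompleteLinearOrder X]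

/-- The properties of the action that the proof uses. -/
structure Hyp (G X : Type*) [Group G] [MulAction G X] [CompleteLinearOrder X]
    (D : Set X) : Prop where
  mono : ∀ g : G, StrictMono fun x : X => g • x
  bot_mem : ⊥ ∈ D
  top_mem : ⊤ ∈ D
  dense : ∀ x y : X, x < y → ∃ d ∈ D, x < d ∧ d < y
  bump : ∀ p ∈ D, ∀ q ∈ D, p < q → ∃ b : G, (∀ x, x ≤ p ∨ q ≤ x → b • x = x) ∧
    (∀ x, p < x → x < q → x < b • x) ∧
    (p = ⊥ → ∀ f : G, ∃ i : ℤ, ∃ e : X, ⊥ < e ∧ ∀ x ≤ e, f • x = b ^ i • x) ∧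
    (q = ⊤ → ∀ f : G, ∃ i : ℤ, ∃ e : X, e < ⊤ ∧ ∀ x ≥ e, f • x = b ^ i • x)

variable {D : Set X}

lemma Hyp.le_iff (H : Hyp G X D) (g : G) {x y : X} : g • x ≤ g • y ↔ x ≤ y :=
  (H.mono g).le_iff_le

lemma Hyp.lt_iff (H : Hyp G X D) (g : G) {x y : X} : g • x < g • y ↔ x < y :=
  (H.mono g).lt_iff_lt

lemma Hyp.smul_bot (H : Hyp G X D) (g : G) : g • (⊥ : X) = ⊥ := by
  apply le_bot_iff.1
  have := (H.le_iff g).2 (bot_le : ⊥ ≤ g⁻¹ • (⊥ : X))
  simpa using this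

lemma Hyp.smul_top (H : Hyp G X D) (g : G) : g • (⊤ : X) = ⊤ := by
  apply top_le_iff.1
  have := (H.le_iff g).2 (le_top : g⁻¹ • (⊤ : X) ≤ ⊤)
  simpa using this

lemma bump_le {b : G} {p q : X} (h1 : ∀ x, x ≤ p ∨ q ≤ x → b • x = x)
    (h2 : ∀ x, p < x → x < q → x < b • x) (x : X) : x ≤ b • x := by
  by_cases hx : x ≤ p ∨ q ≤ x
  · exact (h1 x hx).ge
  · push Not at hx
    exact (h2 x hx.1 hx.2).le

lemma bump_pow_le {b : G} (h : ∀ x : X, x ≤ b • x) (n : ℕ) (x : X) : x ≤ b ^ n • x := by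
  induction n with
  | zero => simp
  | succ n ih => rw [pow_succ', mul_smul]; exact ih.trans (h _)

lemma bump_mem_rist {b : G} {p q : X} (h1 : ∀ x, x ≤ p ∨ q ≤ x → b • x = x) :
    b ∈ rist G (Icc p q) := by
  intro x hx
  apply h1
  rw [mem_Icc, not_and_or, not_le, not_le] at hx
  exact hx.imp le_of_lt le_of_lt

lemma zpow_fix {b : G} {x : X} (h : b • x = x) (i : ℤ) : b ^ i • x = x :=
  (MulAction.stabilizer G x).zpow_mem h i

lemma pow_fix {b : G} {x : X} (h : b • x = x) (i : ℕ) : b ^ i • x = x :=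
  (MulAction.stabilizer G x).pow_mem h i

lemma Hyp.push (H : Hyp G X D) {b : G} {p q : X} (h1 : ∀ x, x ≤ p ∨ q ≤ x → b • x = x)
    (h2 : ∀ x, p < x → x < q → x < b • x) {x y : X} (hx : p < x) (hy : y < q) :
    ∃ N : ℕ, y < b ^ N • x := by
  by_contra hcon
  push Not at hcon
  set s := ⨆ n : ℕ, b ^ n • x with hs
  have hxs : x ≤ s := by simpa using le_iSup (fun n : ℕ => b ^ n • x) 0
  have hsy : s ≤ y := iSup_le hcon
  have h3 : s ≤ b⁻¹ • s := by
    apply iSup_le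
    intro n
    rw [← H.le_iff b, smul_inv_smul, ← mul_smul, ← pow_succ']
    exact le_iSup (fun n : ℕ => b ^ n • x) (n + 1)
  rw [← H.le_iff b, smul_inv_smul] at h3
  exact absurd (h2 s (hx.trans_le hxs) (hsy.trans_lt hy)) (not_lt.2 h3)

variable [FaithfulSMul G X]

/-- A nontrivial subgroup that returns under powers of every element contains the second derived
subgroup of the elements supported in some nondegenerate interval. -/
lemma Hyp.exists_dd_le (H : Hyp G X D) (Δ : Subgroup G) (hne : Δ ≠ ⊥)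
    (hΔ : ∀ d ∈ Δ, ∀ g : G, ∃ n : ℕ, 1 ≤ n ∧ g ^ n * d * (g ^ n)⁻¹ ∈ Δ) :
    ∃ u v : X, ⊥ < u ∧ u < v ∧ v < ⊤ ∧ dd G (Icc u v) ≤ Δ := by
  obtain ⟨δ, hδ, x, hx⟩ : ∃ δ ∈ Δ, ∃ x : X, x < δ • x := by
    obtain ⟨⟨δ, hδ⟩, hδ1⟩ := (Subgroup.ne_bot_iff_exists_ne_one).1 hne
    have : ∃ x : X, δ • x ≠ x := by
      by_contra hcon
      push Not at hcon
      apply hδ1
      apply Subtype.ext
      exact eq_of_smul_eq_smul (α := X) fun x => by simpa using hcon x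
    obtain ⟨x, hx⟩ := this
    rcases lt_or_gt_of_ne hx with h | h
    · exact ⟨δ⁻¹, inv_mem hδ, δ • x, by simpa using h⟩
    · exact ⟨δ, hδ, x, h⟩
  obtain ⟨q, hqD, hxq, hq⟩ := H.dense _ _ hx
  have hq' : δ⁻¹ • q < x := by rw [← H.lt_iff δ, smul_inv_smul]; exact hq
  obtain ⟨p, hpD, hp, hpx⟩ := H.dense _ _ hq'
  have hqp : q < δ • p := by rw [← H.lt_iff δ, smul_inv_smul] at hp; exact hp
  have hpq : p < q := hpx.trans hxq
  obtain ⟨v, hvD, hpv, hvq⟩ := H.dense _ _ hpq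
  obtain ⟨u, -, hpu, huv⟩ := H.dense _ _ hpv
  obtain ⟨w, hwD, hvw, hwq⟩ := H.dense _ _ hvq
  obtain ⟨s, hs1, hs2, -, -⟩ := H.bump v hvD q hqD hvq
  obtain ⟨c, hc1, hc2, -, -⟩ := H.bump p hpD w hwD (hpv.trans hvw)
  have hsw : s⁻¹ • w < w := by rw [← H.lt_iff s, smul_inv_smul]; exact hs2 w hvw hwq
  obtain ⟨N, hN⟩ := H.push hc1 hc2 hpu hsw
  have hsU : s ∈ rist G (Icc p q) := rist_mono (Icc_subset_Icc_left hpv.le) (bump_mem_rist hs1)
  have hcU : c ^ N ∈ rist G (Icc p q) :=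
    pow_mem (rist_mono (Icc_subset_Icc_right hwq.le) (bump_mem_rist hc1)) N
  have key : ∀ Λ : Subgroup G, (∀ g ∈ rist G (Icc p q), ∃ n : ℕ, 1 ≤ n ∧ g ^ n ∈ Λ) →
      ⁅rist G (Icc u v), rist G (Icc u v)⁆ ≤ Λ := by
    intro Λ hΛ
    refine commutator_le_of_powers (W := Ici w) (t := s * c ^ N) (s := s) Λ hΛ
      (mul_mem hsU hcU) hsU (Icc_subset_Icc hpu.le hvq.le)
      (fun y hy hy' => absurd (hy.2.trans_lt hvw) (not_lt.2 hy')) (fun y hy => ?_)
      (fun y hy => ?_) (fun y hy => hs1 y (Or.inl hy.2)) (fun y hy => ?_)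
    · rw [mem_Ici, mul_smul, ← H.le_iff s⁻¹, inv_smul_smul]
      exact hN.le.trans ((H.le_iff _).2 hy.1)
    · rw [mem_Ici, mul_smul, pow_fix (hc1 y (Or.inr hy))]
      exact le_trans hy (bump_le hs1 hs2 y)
    · rw [mul_smul, pow_fix (hc1 y (Or.inr hy))]
  have hpow : ∀ d ∈ Δ, ∀ (hd : ∀ y ∈ Icc p q, y ∉ Icc (d • p) (d • q)),
      ∀ g ∈ rist G (Icc p q), ∃ n : ℕ, 1 ≤ n ∧ g ^ n ∈ proj Δ (Icc p q) _ hd := by
    intro d hd hdis g hg
    obtain ⟨n, hn, hmem⟩ := hΔ d hd g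
    refine ⟨n, hn, pow_mem hg n, d * (g ^ n)⁻¹ * d⁻¹,
      conj_mem_rist (inv_mem (pow_mem hg n))
        (fun y hy => ⟨(H.le_iff d).2 hy.1, (H.le_iff d).2 hy.2⟩), ?_⟩
    convert mul_mem hmem (inv_mem hd) using 1
    group
  have hqp2 : δ • q < (δ * δ) • p := by rw [mul_smul, H.lt_iff]; exact hqp
  have hd1 : ∀ y ∈ Icc p q, y ∉ Icc (δ • p) (δ • q) :=
    fun y hy hy' => absurd (hy.2.trans_lt hqp) (not_lt.2 hy'.1)
  have hd2 : ∀ y ∈ Icc p q, y ∉ Icc ((δ * δ) • p) ((δ * δ) • q) :=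
    fun y hy hy' => absurd (((hy.2.trans_lt hqp).trans ((H.lt_iff δ).2 hpq)).trans hqp2)
      (not_lt.2 hy'.1)
  have hd3 : ∀ y ∈ Icc (δ • p) (δ • q), y ∉ Icc ((δ * δ) • p) ((δ * δ) • q) :=
    fun y hy hy' => absurd (hy.2.trans_lt hqp2) (not_lt.2 hy'.1)
  have k1 := key _ (hpow δ hδ hd1)
  have k2 := key _ (hpow (δ * δ) (mul_mem hδ hδ) hd2)
  refine ⟨u, v, bot_le.trans_lt hpu, huv, hvq.trans_le le_top, ?_⟩
  refine (Subgroup.commutator_mono k1 k2).trans ?_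
  rw [Subgroup.commutator_le]
  rintro a ⟨ha, m, hm, ham⟩ b ⟨hb, m', hm', hbm⟩
  rw [← commutator_mul_mul (commute_of_disjoint ha hm' hd2)
    (commute_of_disjoint hb hm hd1).symm (commute_of_disjoint hm hm' hd3), commutatorElement_def]
  exact mul_mem (mul_mem (mul_mem ham hbm) (inv_mem ham)) (inv_mem hbm)

omit [FaithfulSMul G X] in
/-- An element that contracts a given compact interval into a given interval. -/
lemma Hyp.exists_contract (H : Hyp G X D) {u v a b : X} (hu : ⊥ < u) (huv : u < v) (hv : v < ⊤)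
    (ha : ⊥ < a) (hb : b < ⊤) :
    ∃ γ : G, ∀ n : ℕ, 1 ≤ n → ∀ x ∈ Icc a b, γ ^ n • x ∈ Icc u v := by
  obtain ⟨r, hrD, hur, hrv⟩ := H.dense _ _ huv
  obtain ⟨α, hα1, hα2, -, -⟩ := H.bump ⊥ H.bot_mem r hrD (hu.trans hur)
  obtain ⟨β, hβ1, hβ2, -, -⟩ := H.bump r hrD ⊤ H.top_mem (hrv.trans hv)
  obtain ⟨N, hN⟩ := H.push hα1 hα2 (lt_min ha hu) hur
  obtain ⟨M, hM⟩ := H.push hβ1 hβ2 hrv (max_lt hb hv)
  have hβr : (β ^ M)⁻¹ • r = r := by rw [inv_smul_eq_iff, pow_fix (hβ1 r (Or.inl le_rfl))]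
  have h1 : ∀ x ∈ Icc (min a u) (max b v), (α ^ N * (β ^ M)⁻¹) • x ∈ Icc u v := by
    intro x hx
    constructor
    · refine le_trans ?_ ((H.le_iff _).2 hx.1)
      have : (β ^ M)⁻¹ • min a u = min a u := by
        rw [inv_smul_eq_iff, pow_fix (hβ1 _ (Or.inl ((min_le_right _ _).trans hur.le)))]
      rw [mul_smul, this]
      exact hN.le
    · refine le_trans ((H.le_iff _).2 hx.2) ?_
      have h2 : r ≤ (β ^ M)⁻¹ • max b v := by
        rw [← hβr, H.le_iff]; exact hrv.le.trans (le_max_right _ _)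
      rw [mul_smul, pow_fix (hα1 _ (Or.inr h2)), ← H.le_iff (β ^ M), smul_inv_smul]
      exact hM.le
  refine ⟨α ^ N * (β ^ M)⁻¹, fun n hn x hx => ?_⟩
  induction n, hn using Nat.le_induction with
  | base => rw [pow_one]; exact h1 x ⟨(min_le_left _ _).trans hx.1, hx.2.trans (le_max_left _ _)⟩
  | succ n _ ih =>
    rw [pow_succ', mul_smul]
    exact h1 _ ⟨(min_le_right _ _).trans ih.1, ih.2.trans (le_max_right _ _)⟩

/-- The union of the second derived subgroups over all compact subintervals of the interior. -/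
def core (G X : Type*) [Group G] [MulAction G X] [CompleteLinearOrder X] [Nontrivial X] :
    Subgroup G where
  carrier := {g | ∃ a b : X, ⊥ < a ∧ b < ⊤ ∧ g ∈ dd G (Icc a b)}
  one_mem' := ⟨⊤, ⊥, bot_lt_top, bot_lt_top, one_mem _⟩
  mul_mem' := by
    rintro g h ⟨a, b, ha, hb, hg⟩ ⟨a', b', ha', hb', hh⟩
    exact ⟨min a a', max b b', lt_min ha ha', max_lt hb hb',
      mul_mem (dd_mono (Icc_subset_Icc (min_le_left _ _) (le_max_left _ _)) hg)
        (dd_mono (Icc_subset_Icc (min_le_right _ _) (le_max_right _ _)) hh)⟩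
  inv_mem' := by
    rintro g ⟨a, b, ha, hb, hg⟩
    exact ⟨a, b, ha, hb, inv_mem hg⟩

omit [FaithfulSMul G X] in
lemma Hyp.core_normal [Nontrivial X] (H : Hyp G X D) : (core G X).Normal := by
  constructor
  rintro g ⟨a, b, ha, hb, hg⟩ h
  refine ⟨h • a, h • b, ?_, ?_, conj_mem_dd hg
    (fun x hx => ⟨(H.le_iff h).2 hx.1, (H.le_iff h).2 hx.2⟩)⟩
  · rw [← H.smul_bot h, H.lt_iff]; exact ha
  · rw [← H.smul_top h, H.lt_iff]; exact hb

lemma Hyp.commutator_mem_core [Nontrivial X] (H : Hyp G X D) {a b : X} (ha : ⊥ < a) (hb : b < ⊤)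
    {x y : G} (hx : x ∈ rist G (Icc a b)) (hy : y ∈ rist G (Icc a b)) : ⁅x, y⁆ ∈ core G X := by
  rcases lt_or_ge b a with hba | hab
  · have : x = 1 := eq_of_smul_eq_smul (α := X) fun z => by
      rw [one_smul]; exact hx z (fun hz => absurd (hz.1.trans hz.2) (not_le.2 hba))
    rw [this]; simp
  obtain ⟨p, hpD, hp, hpa⟩ := H.dense _ _ ha
  obtain ⟨q, hqD, hbq, hq⟩ := H.dense _ _ hb
  obtain ⟨c, hc1, hc2, -, -⟩ := H.bump p hpD q hqD ((hpa.trans_le hab).trans hbq)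
  obtain ⟨N, hN⟩ := H.push hc1 hc2 hpa hbq
  set k := c ^ N with hk
  have hkU : k ∈ rist G (Icc p q) := pow_mem (bump_mem_rist hc1) N
  have hsub : rist G (Icc a b) ≤ rist G (Icc p q) := rist_mono (Icc_subset_Icc hpa.le hbq.le)
  have hm : k * y⁻¹ * k⁻¹ ∈ rist G (Icc (k • a) (k • b)) :=
    conj_mem_rist (inv_mem hy) (fun z hz => ⟨(H.le_iff k).2 hz.1, (H.le_iff k).2 hz.2⟩)
  have hm' : (k * k) * x⁻¹ * (k * k)⁻¹ ∈ rist G (Icc ((k * k) • a) ((k * k) • b)) :=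
    conj_mem_rist (inv_mem hx) (fun z hz => ⟨(H.le_iff _).2 hz.1, (H.le_iff _).2 hz.2⟩)
  have hN2 : k • b < (k * k) • a := by rw [mul_smul, H.lt_iff]; exact hN
  have hd1 : ∀ z ∈ Icc a b, z ∉ Icc (k • a) (k • b) :=
    fun z hz hz' => absurd (hz.2.trans_lt hN) (not_lt.2 hz'.1)
  have hd2 : ∀ z ∈ Icc a b, z ∉ Icc ((k * k) • a) ((k * k) • b) :=
    fun z hz hz' => absurd (((hz.2.trans_lt hN).trans_le ((H.le_iff k).2 hab)).trans hN2)
      (not_lt.2 hz'.1)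
  have hd3 : ∀ z ∈ Icc (k • a) (k • b), z ∉ Icc ((k * k) • a) ((k * k) • b) :=
    fun z hz hz' => absurd (hz.2.trans_lt hN2) (not_lt.2 hz'.1)
  refine ⟨p, q, hp, hq, ?_⟩
  rw [← commutator_mul_mul (commute_of_disjoint hx hm hd1)
    (commute_of_disjoint hy hm' hd2).symm (commute_of_disjoint hm hm' hd3).symm]
  have e1 : x * (k * k * x⁻¹ * (k * k)⁻¹) = ⁅x, k * k⁆ := by
    rw [commutatorElement_def]; group
  have e2 : y * (k * y⁻¹ * k⁻¹) = ⁅y, k⁆ := by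
    rw [commutatorElement_def]; group
  rw [e1, e2]
  exact Subgroup.commutator_mem_commutator
    (Subgroup.commutator_mem_commutator (hsub hx) (mul_mem hkU hkU))
    (Subgroup.commutator_mem_commutator (hsub hy) hkU)

omit [FaithfulSMul G X] in
lemma Hyp.decomp (H : Hyp G X D) {p q : X} (hpD : p ∈ D) (hqD : q ∈ D) (hp : ⊥ < p)
    (hpq : p < q) (hq : q < ⊤) :
    ∃ α β : G, (∀ x, p ≤ x → α • x = x) ∧ (∀ x, x ≤ q → β • x = x) ∧
      ∀ f : G, ∃ i j : ℤ, ∃ a b : X, ⊥ < a ∧ b < ⊤ ∧ ∃ c ∈ rist G (Icc a b),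
        f = α ^ i * β ^ j * c := by
  obtain ⟨α, hα1, -, hα3, -⟩ := H.bump ⊥ H.bot_mem p hpD hp
  obtain ⟨β, hβ1, -, -, hβ3⟩ := H.bump q hqD ⊤ H.top_mem hq
  refine ⟨α, β, fun x hx => hα1 x (Or.inr hx), fun x hx => hβ1 x (Or.inl hx), fun f => ?_⟩
  obtain ⟨i, e, he, hfe⟩ := hα3 rfl f
  obtain ⟨j, e', he', hfe'⟩ := hβ3 rfl f
  refine ⟨i, j, min e q, max e' q, lt_min he (hp.trans hpq), max_lt he' hq,
    (β ^ j)⁻¹ * (α ^ i)⁻¹ * f, fun x hx => ?_, by group⟩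
  rw [mem_Icc, not_and_or, not_le, not_le] at hx
  rcases hx with hx | hx
  · rw [lt_min_iff] at hx
    rw [mul_smul, mul_smul, hfe x hx.1.le, inv_smul_smul, inv_smul_eq_iff,
      zpow_fix (hβ1 x (Or.inl hx.2.le))]
  · rw [max_lt_iff] at hx
    have h1 : q ≤ β ^ j • x := by
      rw [← zpow_fix (hβ1 q (Or.inl le_rfl)) j, H.le_iff]; exact hx.2.le
    have h2 : (α ^ i)⁻¹ • β ^ j • x = β ^ j • x := by
      rw [inv_smul_eq_iff, zpow_fix (hα1 _ (Or.inr (hpq.le.trans h1)))]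
    rw [mul_smul, mul_smul, hfe' x hx.1.le, h2, inv_smul_smul]

lemma Hyp.commutator_mem_core' [Nontrivial X] (H : Hyp G X D) (x y : G) : ⁅x, y⁆ ∈ core G X := by
  have := H.core_normal
  let π := QuotientGroup.mk' (core G X)
  have hiff : ∀ x y : G, ⁅x, y⁆ ∈ core G X ↔ Commute (π x) (π y) := by
    intro x y
    rw [← commutatorElement_eq_one_iff_commute, ← map_commutatorElement, ← MonoidHom.mem_ker,
      QuotientGroup.ker_mk']
  have hCC : ∀ a b a' b' : X, ⊥ < a → b < ⊤ → ⊥ < a' → b' < ⊤ → ∀ x ∈ rist G (Icc a b),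
      ∀ y ∈ rist G (Icc a' b'), Commute (π x) (π y) := by
    intro a b a' b' ha hb ha' hb' x hx y hy
    rw [← hiff]
    exact H.commutator_mem_core (lt_min ha ha') (max_lt hb hb')
      (rist_mono (Icc_subset_Icc (min_le_left _ _) (le_max_left _ _)) hx)
      (rist_mono (Icc_subset_Icc (min_le_right _ _) (le_max_right _ _)) hy)
  obtain ⟨q₀, hq₀D, hq₀, hq₀'⟩ := H.dense _ _ (bot_lt_top (α := X))
  have hcen : ∀ a b : X, ⊥ < a → b < ⊤ → ∀ c ∈ rist G (Icc a b), ∀ f : G,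
      Commute (π c) (π f) := by
    intro a b ha hb c hc f
    obtain ⟨p, hpD, hp, hpa⟩ := H.dense _ _ (lt_min ha hq₀)
    obtain ⟨q, hqD, hbq, hq⟩ := H.dense _ _ (max_lt hb hq₀')
    rw [lt_min_iff] at hpa
    rw [max_lt_iff] at hbq
    obtain ⟨α, β, hα, hβ, hdec⟩ := H.decomp hpD hqD hp (hpa.2.trans hbq.2) hq
    obtain ⟨i, j, a', b', ha', hb', c', hc', rfl⟩ := hdec f
    have h1 : Commute c α := commute_of_fix hc (fun x hx => hα x (hpa.1.le.trans hx.1))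
    have h2 : Commute c β := commute_of_fix hc (fun x hx => hβ x (hx.2.trans hbq.1.le))
    rw [map_mul]
    exact (((h1.zpow_right i).mul_right (h2.zpow_right j)).map π).mul_right
      (hCC a b a' b' ha hb ha' hb' c hc c' hc')
  obtain ⟨p₀, hp₀D, hp₀, hpq₀⟩ := H.dense _ _ hq₀
  obtain ⟨α, β, hα, hβ, hdec⟩ := H.decomp hp₀D hq₀D hp₀ hpq₀ hq₀'
  have hαβ : Commute α β :=
    commute_of_fix (S := Iic q₀) (fun x hx => hα x (hpq₀.le.trans (not_le.1 hx).le)) hβ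
  obtain ⟨i, j, a, b, ha, hb, c, hc, rfl⟩ := hdec x
  obtain ⟨i', j', a', b', ha', hb', c', hc', rfl⟩ := hdec y
  rw [hiff, map_mul π _ c]
  refine Commute.mul_left ?_ (hcen a b ha hb c hc _)
  rw [map_mul π _ c']
  refine Commute.mul_right (Commute.map ?_ π) (hcen a' b' ha' hb' c' hc' _).symm
  exact ((Commute.zpow_zpow_self α i i').mul_right (hαβ.zpow_zpow i j')).mul_left
    ((hαβ.symm.zpow_zpow j i').mul_right (Commute.zpow_zpow_self β j j'))

/-- The abstract theorem. -/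
theorem Hyp.normal_of_boomerang [Nontrivial X] (H : Hyp G X D) (Δ : Subgroup G)
    (hΔ : ∀ d ∈ Δ, ∀ g : G, ∃ n : ℕ, 1 ≤ n ∧ g ^ n * d * (g ^ n)⁻¹ ∈ Δ)
    (hΔ' : ∀ d ∉ Δ, ∀ g : G, ∃ n : ℕ, 1 ≤ n ∧ g ^ n * d * (g ^ n)⁻¹ ∉ Δ) : Δ.Normal := by
  by_cases hne : Δ = ⊥
  · rw [hne]; infer_instance
  obtain ⟨u, v, hu, huv, hv, hle⟩ := H.exists_dd_le Δ hne hΔ
  have hcore : core G X ≤ Δ := by
    rintro g ⟨a, b, ha, hb, hg⟩
    obtain ⟨γ, hγ⟩ := H.exists_contract hu huv hv ha hb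
    by_contra hcon
    obtain ⟨n, hn, hn'⟩ := hΔ' g hcon γ
    exact hn' (hle (conj_mem_dd hg (hγ n hn)))
  constructor
  intro d hd g
  have := mul_mem (hcore (H.commutator_mem_core' g d)) hd
  rw [commutatorElement_def] at this
  simpa using this

end Order

end Pool.Agent.P.MP_bd6a20_al
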