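import Mathlib

/-!
Thompson's group `F` as a group of homeomorphisms of the unit interval, and boomerang subgroups.
-/

open Set

namespace Pool.Agent.P.MP_bd6a20_al

/-- A dyadic rational. -/
def IsDyadic (x : ℝ) : Prop := ∃ (m : ℤ) (k : ℕ), x = (m : ℝ) / 2 ^ k

/-- An orientation-preserving homeomorphism of `[0, 1]` that is piecewise linear with finitely
many breakpoints, all dyadic, and all slopes integer powers of `2`: there is a finite set `B` of
dyadic points such that on every interval with no point of `B` in its interior the map is affine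
with slope a power of `2`. -/
def IsThompsonMap (f : unitInterval ≃ₜ unitInterval) : Prop :=
  StrictMono f ∧ ∃ B : Finset unitInterval, (∀ p ∈ B, IsDyadic (p : ℝ)) ∧
    ∀ a b : unitInterval, a < b → (∀ p ∈ B, ¬ (a < p ∧ p < b)) →
      ∃ (k : ℤ) (c : ℝ), ∀ x : unitInterval, a ≤ x → x ≤ b → (f x : ℝ) = 2 ^ k * (x : ℝ) + c

lemma IsDyadic.add {x y : ℝ} (hx : IsDyadic x) (hy : IsDyadic y) : IsDyadic (x + y) := by
  obtain ⟨m, k, rfl⟩ := hx
  obtain ⟨n, l, rfl⟩ := hy
  exact ⟨m * 2 ^ l + n * 2 ^ k, k + l, by push_cast; field_simp; ring⟩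

lemma IsDyadic.neg {x : ℝ} (hx : IsDyadic x) : IsDyadic (-x) := by
  obtain ⟨m, k, rfl⟩ := hx
  exact ⟨-m, k, by push_cast; ring⟩

lemma IsDyadic.zpow_mul {x : ℝ} (hx : IsDyadic x) (i : ℤ) : IsDyadic (2 ^ i * x) := by
  obtain ⟨m, k, rfl⟩ := hx
  obtain ⟨n, rfl | rfl⟩ := i.eq_nat_or_neg
  · exact ⟨2 ^ n * m, k, by push_cast; rw [zpow_natCast]; ring⟩
  · exact ⟨m, n + k, by rw [zpow_neg, zpow_natCast]; field_simp; ring⟩

lemma map_zero_of_strictMono {f : unitInterval ≃ₜ unitInterval} (hf : StrictMono f) :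
    f 0 = 0 := by
  have := hf.monotone (unitInterval.nonneg' : 0 ≤ f.symm 0)
  rw [Homeomorph.apply_symm_apply] at this
  exact le_antisymm this unitInterval.nonneg'

lemma IsThompsonMap.exists_dyadic {f : unitInterval ≃ₜ unitInterval} (hf : IsThompsonMap f)
    (x : unitInterval) : ∃ (k : ℤ) (c : ℝ), IsDyadic c ∧ (f x : ℝ) = 2 ^ k * (x : ℝ) + c := by
  classical
  obtain ⟨hm, B, hB, h⟩ := hf
  have h0 : (f 0 : ℝ) = 0 := by rw [map_zero_of_strictMono hm]; rfl
  induction hn : (B.filter (· < x)).card using Nat.strong_induction_on generalizing x with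
  | _ n ih =>
  by_cases hne : (B.filter (· < x)).Nonempty
  · set p := (B.filter (· < x)).max' hne with hp
    have hpm := Finset.mem_filter.1 ((B.filter (· < x)).max'_mem hne)
    obtain ⟨k, c, hkc⟩ := h p x hpm.2 (fun r hr hr' =>
      absurd ((B.filter (· < x)).le_max' r (Finset.mem_filter.2 ⟨hr, hr'.2⟩)) (not_le.2 hr'.1))
    have hlt : (B.filter (· < p)).card < n := by
      rw [← hn]
      apply Finset.card_lt_card
      refine ⟨fun r hr => ?_, fun hsub => ?_⟩
      · rw [Finset.mem_filter] at hr ⊢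
        exact ⟨hr.1, hr.2.trans hpm.2⟩
      · exact lt_irrefl _ (Finset.mem_filter.1 (hsub (Finset.mem_filter.2 hpm))).2
    obtain ⟨k', c', hc', hp'⟩ := ih _ hlt p rfl
    refine ⟨k, c, ?_, hkc x hpm.2.le le_rfl⟩
    have h1 := hkc p le_rfl hpm.2.le
    have : c = 2 ^ k' * (p : ℝ) + c' + -(2 ^ k * (p : ℝ)) := by rw [← hp', h1]; ring
    rw [this]
    exact (((hB p hpm.1).zpow_mul k').add hc').add ((hB p hpm.1).zpow_mul k).neg
  · rcases eq_or_lt_of_le (unitInterval.nonneg' : 0 ≤ x) with hx | hx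
    · exact ⟨0, 0, ⟨0, 0, by simp⟩, by rw [← hx, h0]; simp⟩
    · obtain ⟨k, c, hkc⟩ := h 0 x hx (fun r hr hr' => hne ⟨r, Finset.mem_filter.2 ⟨hr, hr'.2⟩⟩)
      have h1 := hkc 0 le_rfl hx.le
      rw [h0] at h1
      exact ⟨k, c, ⟨0, 0, by simpa using h1.symm⟩, hkc x hx.le le_rfl⟩

lemma IsThompsonMap.isDyadic_iff {f : unitInterval ≃ₜ unitInterval} (hf : IsThompsonMap f)
    (x : unitInterval) : IsDyadic (f x : ℝ) ↔ IsDyadic (x : ℝ) := by
  obtain ⟨k, c, hc, h⟩ := hf.exists_dyadic x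
  constructor
  · intro hx
    have : (x : ℝ) = 2 ^ (-k) * ((f x : ℝ) + -c) := by
      rw [h, zpow_neg]; field_simp; ring
    rw [this]
    exact (hx.add hc.neg).zpow_mul _
  · intro hx
    rw [h]
    exact (hx.zpow_mul k).add hc

lemma isThompsonMap_one : IsThompsonMap 1 :=
  ⟨fun _ _ h => h, ∅, by simp, fun _ _ _ _ => ⟨0, 0, fun x _ _ => by simp⟩⟩

lemma IsThompsonMap.mul {f g : unitInterval ≃ₜ unitInterval} (hf : IsThompsonMap f)
    (hg : IsThompsonMap g) : IsThompsonMap (f * g) := by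
  classical
  have hg' := hg
  obtain ⟨hfm, B, hB, h⟩ := hf
  obtain ⟨hgm, B', hB', h'⟩ := hg
  refine ⟨hfm.comp hgm, B' ∪ B.image g.symm, fun p hp => ?_, fun a b hab hp => ?_⟩
  · rcases Finset.mem_union.1 hp with hp | hp
    · exact hB' p hp
    · obtain ⟨r, hr, rfl⟩ := Finset.mem_image.1 hp
      rw [← hg'.isDyadic_iff, Homeomorph.apply_symm_apply]
      exact hB r hr
  · obtain ⟨k', c', hkc'⟩ := h' a b hab (fun p hpB => hp p (Finset.mem_union_left _ hpB))
    obtain ⟨k, c, hkc⟩ := h (g a) (g b) (hgm hab) (fun p hpB hh =>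
      hp (g.symm p) (Finset.mem_union_right _ (Finset.mem_image_of_mem _ hpB))
        ⟨by rw [← hgm.lt_iff_lt, Homeomorph.apply_symm_apply]; exact hh.1,
         by rw [← hgm.lt_iff_lt, Homeomorph.apply_symm_apply]; exact hh.2⟩)
    refine ⟨k + k', 2 ^ k * c' + c, fun x hax hxb => ?_⟩
    rw [Homeomorph.mul_apply, hkc _ (hgm.monotone hax) (hgm.monotone hxb), hkc' x hax hxb,
      zpow_add₀ (two_ne_zero)]
    ring

lemma IsThompsonMap.inv {f : unitInterval ≃ₜ unitInterval} (hf : IsThompsonMap f) :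
    IsThompsonMap f⁻¹ := by
  classical
  have hf' := hf
  obtain ⟨hfm, B, hB, h⟩ := hf
  have hsm : StrictMono f.symm := fun x y hxy => by
    rw [← hfm.lt_iff_lt, Homeomorph.apply_symm_apply, Homeomorph.apply_symm_apply]; exact hxy
  refine ⟨hsm, B.image f, fun p hp => ?_, fun a b hab hp => ?_⟩
  · obtain ⟨r, hr, rfl⟩ := Finset.mem_image.1 hp
    exact (hf'.isDyadic_iff r).2 (hB r hr)
  · obtain ⟨k, c, hkc⟩ := h (f.symm a) (f.symm b) (hsm hab) (fun p hpB hh =>
      hp (f p) (Finset.mem_image_of_mem _ hpB)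
        ⟨by rw [← hsm.lt_iff_lt, Homeomorph.symm_apply_apply]; exact hh.1,
         by rw [← hsm.lt_iff_lt, Homeomorph.symm_apply_apply]; exact hh.2⟩)
    refine ⟨-k, -(2 ^ (-k) * c), fun x hax hxb => ?_⟩
    have := hkc _ (hsm.monotone hax) (hsm.monotone hxb)
    rw [Homeomorph.apply_symm_apply] at this
    rw [Homeomorph.inv_apply, this, zpow_neg]
    field_simp
    ring

/-- Thompson's group `F`, a subgroup of the homeomorphism group of `[0, 1]` under composition. -/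
def thompsonF : Subgroup (unitInterval ≃ₜ unitInterval) where
  carrier := {f | IsThompsonMap f}
  one_mem' := isThompsonMap_one
  mul_mem' := IsThompsonMap.mul
  inv_mem' := IsThompsonMap.inv

/-- `γ` is a recurrent direction for `Δ`: for all finite `A ⊆ Δ` and `B` disjoint from `Δ` there
is `n ≥ 1` with `A ⊆ γ ^ n Δ γ ^ (-n)` and `B` disjoint from `γ ^ n Δ γ ^ (-n)`. -/
def IsRecurrentDirection {Γ : Type*} [Group Γ] (Δ : Subgroup Γ) (γ : Γ) : Prop :=
  ∀ A B : Finset Γ, (∀ a ∈ A, a ∈ Δ) → (∀ b ∈ B, b ∉ Δ) →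
    ∃ n : ℕ, 1 ≤ n ∧ (∀ a ∈ A, ∃ d ∈ Δ, a = γ ^ n * d * (γ ^ n)⁻¹) ∧
      (∀ b ∈ B, ¬ ∃ d ∈ Δ, b = γ ^ n * d * (γ ^ n)⁻¹)

/-- A boomerang subgroup: every element of the group is a recurrent direction. -/
def IsBoomerang {Γ : Type*} [Group Γ] (Δ : Subgroup Γ) : Prop :=
  ∀ γ : Γ, IsRecurrentDirection Δ γ

end Pool.Agent.P.MP_bd6a20_al
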