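import Mathlib
import Pool.Agent.P.MP_bd6a20_al.Defs
import Pool.Agent.P.MP_bd6a20_al.Abstract

/-!
Thompson's group `F` satisfies the hypotheses of the abstract theorem.
-/

open Set

namespace Pool.Agent.P.MP_bd6a20_al

/-- The tautological action of `F` on the unit interval. -/
@[reducible] def thompsonAction : MulAction thompsonF unitInterval where
  smul f x := f.1 x
  one_smul _ := rfl
  mul_smul _ _ _ := rfl

attribute [local instance] thompsonAction

lemma smul_def (f : thompsonF) (x : unitInterval) : f • x = f.1 x := rfl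

lemma thompsonFaithful : FaithfulSMul thompsonF unitInterval :=
  ⟨fun h => Subtype.ext (Homeomorph.ext h)⟩

/-- The bump function on `[p, q]`. -/
noncomputable def bumpFun (p q x : ℝ) : ℝ :=
  max x (min (2 * x - p) (min (x + (q - p) / 4) ((x + q) / 2)))

lemma bumpFun_strictMono (p q : ℝ) : StrictMono (bumpFun p q) := by
  intro x y hxy
  unfold bumpFun
  exact max_lt_max hxy (min_lt_min (by linarith) (min_lt_min (by linarith) (by linarith)))

lemma bumpFun_continuous (p q : ℝ) : Continuous (bumpFun p q) := by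
  unfold bumpFun
  fun_prop

lemma bumpFun_left {p q x : ℝ} (hx : x ≤ p) : bumpFun p q x = x :=
  max_eq_left ((min_le_left _ _).trans (by linarith))

lemma bumpFun_right {p q x : ℝ} (hx : q ≤ x) : bumpFun p q x = x :=
  max_eq_left ((min_le_right _ _).trans ((min_le_right _ _).trans (by linarith)))

lemma bumpFun_gt {p q x : ℝ} (hp : p < x) (hq : x < q) : x < bumpFun p q x :=
  lt_max_of_lt_right (lt_min (by linarith) (lt_min (by linarith) (by linarith)))

lemma bumpFun_one {p q x : ℝ} (h1 : p ≤ x) (h2 : x ≤ p + (q - p) / 4) :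
    bumpFun p q x = 2 * x - p := by
  unfold bumpFun
  rw [min_eq_left (le_min (by linarith) (by linarith)), max_eq_right (by linarith)]

lemma bumpFun_two {p q x : ℝ} (h1 : p + (q - p) / 4 ≤ x) (h2 : x ≤ p + (q - p) / 2) :
    bumpFun p q x = x + (q - p) / 4 := by
  unfold bumpFun
  rw [min_eq_left (show x + (q - p) / 4 ≤ (x + q) / 2 by linarith),
    min_eq_right (by linarith), max_eq_right (by linarith)]

lemma bumpFun_three {p q x : ℝ} (h1 : p + (q - p) / 2 ≤ x) (h2 : x ≤ q) :
    bumpFun p q x = (x + q) / 2 := by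
  unfold bumpFun
  rw [min_eq_right (show (x + q) / 2 ≤ x + (q - p) / 4 by linarith),
    min_eq_right (by linarith), max_eq_right (by linarith)]

lemma bumpFun_mem (p q x : unitInterval) : bumpFun p q x ∈ unitInterval := by
  constructor
  · rw [← bumpFun_left (q := q) p.2.1]
    exact (bumpFun_strictMono _ _).monotone x.2.1
  · rw [← bumpFun_right (p := p) q.2.2]
    exact (bumpFun_strictMono _ _).monotone x.2.2

lemma exists_bump_homeo (p q : unitInterval) :
    ∃ b : unitInterval ≃ₜ unitInterval, ∀ x, (b x : ℝ) = bumpFun p q x := by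
  let g : unitInterval → unitInterval := fun x => ⟨bumpFun p q x, bumpFun_mem p q x⟩
  have hg : StrictMono g := fun x y hxy => bumpFun_strictMono _ _ hxy
  have hs : Function.Surjective g := by
    intro y
    have := intermediate_value_Icc (zero_le_one (α := ℝ))
      (bumpFun_continuous p q).continuousOn
    rw [bumpFun_left (q := q) p.2.1, bumpFun_right (p := p) q.2.2] at this
    obtain ⟨x, hx, hxy⟩ := this y.2
    exact ⟨⟨x, hx⟩, Subtype.ext hxy⟩
  exact ⟨(hg.orderIsoOfSurjective g hs).toHomeomorph, fun x => rfl⟩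

lemma isDyadic_mid {p q : ℝ} (hp : IsDyadic p) (hq : IsDyadic q) (i : ℤ) :
    IsDyadic (p + 2 ^ i * (q - p)) := by
  have := hp.add ((hq.add hp.neg).zpow_mul i)
  rwa [← sub_eq_add_neg] at this

lemma isThompsonMap_bump {p q : unitInterval} (hp : IsDyadic (p : ℝ)) (hq : IsDyadic (q : ℝ))
    (hpq : p < q) {b : unitInterval ≃ₜ unitInterval} (hb : ∀ x, (b x : ℝ) = bumpFun p q x) :
    IsThompsonMap b := by
  classical
  have hpq' : (p : ℝ) < q := hpq
  have hp0 := p.2.1
  have hq1 := q.2.2
  let r₁ : unitInterval := ⟨p + (q - p) / 4, by constructor <;> linarith⟩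
  let r₂ : unitInterval := ⟨p + (q - p) / 2, by constructor <;> linarith⟩
  refine ⟨fun x y hxy => ?_, {p, r₁, r₂, q}, fun r hr => ?_, fun a c hac h => ?_⟩
  · show (b x : ℝ) < b y
    rw [hb, hb]
    exact bumpFun_strictMono _ _ hxy
  · simp only [Finset.mem_insert, Finset.mem_singleton] at hr
    rcases hr with rfl | rfl | rfl | rfl
    · exact hp
    · convert isDyadic_mid hp hq (-2) using 1
      simp only [r₁]; norm_num; ring
    · convert isDyadic_mid hp hq (-1) using 1
      simp only [r₂]; norm_num; ring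
    · exact hq
  · have h1 := h p (by simp)
    have h2 := h r₁ (by simp)
    have h3 := h r₂ (by simp)
    have h4 := h q (by simp)
    rw [not_and_or, not_lt, not_lt] at h1 h2 h3 h4
    rcases h1 with h1 | h1
    · rcases h2 with h2 | h2
      · rcases h3 with h3 | h3
        · rcases h4 with h4 | h4
          · refine ⟨0, 0, fun x hax _ => ?_⟩
            rw [hb, bumpFun_right (h4.trans hax)]; simp
          · refine ⟨-1, q / 2, fun x hax hxc => ?_⟩
            rw [hb, bumpFun_three (h3.trans hax) (hxc.trans h4)]; norm_num; ring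
        · refine ⟨0, (q - p) / 4, fun x hax hxc => ?_⟩
          rw [hb, bumpFun_two (h2.trans hax) (hxc.trans h3)]; simp
      · refine ⟨1, -p, fun x hax hxc => ?_⟩
        rw [hb, bumpFun_one (h1.trans hax) (hxc.trans h2)]; norm_num; ring
    · refine ⟨0, 0, fun x _ hxc => ?_⟩
      rw [hb, bumpFun_left (hxc.trans h1)]; simp

lemma thompson_mono (f : thompsonF) : StrictMono fun x : unitInterval => f • x := f.2.1

lemma thompson_zero (f : thompsonF) : f • (0 : unitInterval) = 0 := map_zero_of_strictMono f.2.1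

lemma thompson_one (f : thompsonF) : f • (1 : unitInterval) = 1 := by
  have := (thompson_mono f).monotone (unitInterval.le_one' : f⁻¹ • (1 : unitInterval) ≤ 1)
  simp only [smul_inv_smul] at this
  exact le_antisymm unitInterval.le_one' this

/-- `f` has slope `2 ^ k` at `0`. -/
def SlopeZero (f : thompsonF) (k : ℤ) : Prop :=
  ∃ e : unitInterval, 0 < e ∧ ∀ x ≤ e, ((f • x : unitInterval) : ℝ) = 2 ^ k * (x : ℝ)

/-- `f` has slope `2 ^ k` at `1`. -/
def SlopeOne (f : thompsonF) (k : ℤ) : Prop :=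
  ∃ e : unitInterval, e < 1 ∧
    ∀ x ≥ e, 1 - ((f • x : unitInterval) : ℝ) = 2 ^ k * (1 - (x : ℝ))

lemma exists_slopeZero (f : thompsonF) : ∃ k, SlopeZero f k := by
  classical
  obtain ⟨-, B, -, h⟩ := f.2
  let S := insert (1 : unitInterval) (B.filter (0 < ·))
  have hne : S.Nonempty := Finset.insert_nonempty _ _
  have he : 0 < S.min' hne := by
    rcases Finset.mem_insert.1 (S.min'_mem hne) with h1 | h1
    · rw [h1]; exact zero_lt_one
    · exact (Finset.mem_filter.1 h1).2
  obtain ⟨k, c, hkc⟩ := h 0 (S.min' hne) he (fun r hr hr' =>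
    absurd (S.min'_le r (Finset.mem_insert_of_mem (Finset.mem_filter.2 ⟨hr, hr'.1⟩)))
      (not_le.2 hr'.2))
  have h0 := hkc 0 le_rfl he.le
  rw [← smul_def, thompson_zero] at h0
  have hc : c = 0 := by simpa using h0.symm
  exact ⟨k, _, he, fun x hx => by rw [smul_def, hkc x unitInterval.nonneg' hx, hc, add_zero]⟩

lemma exists_slopeOne (f : thompsonF) : ∃ k, SlopeOne f k := by
  classical
  obtain ⟨-, B, -, h⟩ := f.2
  let S := insert (0 : unitInterval) (B.filter (· < 1))
  have hne : S.Nonempty := Finset.insert_nonempty _ _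
  have he : S.max' hne < 1 := by
    rcases Finset.mem_insert.1 (S.max'_mem hne) with h1 | h1
    · rw [h1]; exact zero_lt_one
    · exact (Finset.mem_filter.1 h1).2
  obtain ⟨k, c, hkc⟩ := h (S.max' hne) 1 he (fun r hr hr' =>
    absurd (S.le_max' r (Finset.mem_insert_of_mem (Finset.mem_filter.2 ⟨hr, hr'.2⟩)))
      (not_le.2 hr'.1))
  have h0 := hkc 1 he.le le_rfl
  rw [← smul_def, thompson_one] at h0
  have hc : c = 1 - 2 ^ k := by
    have : (1 : ℝ) = 2 ^ k + c := by simpa using h0
    linarith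
  exact ⟨k, _, he, fun x hx => by rw [smul_def, hkc x hx unitInterval.le_one', hc]; ring⟩

lemma SlopeZero.mul {f g : thompsonF} {k l : ℤ} (hf : SlopeZero f k) (hg : SlopeZero g l) :
    SlopeZero (f * g) (k + l) := by
  obtain ⟨e, he, h⟩ := hf
  obtain ⟨e', he', h'⟩ := hg
  refine ⟨min e' (g⁻¹ • e), lt_min he' ?_, fun x hx => ?_⟩
  · rw [← thompson_zero g⁻¹]; exact thompson_mono _ he
  · rw [le_min_iff] at hx
    have : g • x ≤ e := by simpa using (thompson_mono g).monotone hx.2
    rw [mul_smul, h _ this, h' _ hx.1, zpow_add₀ two_ne_zero, mul_assoc]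

lemma SlopeZero.inv {f : thompsonF} {k : ℤ} (hf : SlopeZero f k) : SlopeZero f⁻¹ (-k) := by
  obtain ⟨e, he, h⟩ := hf
  refine ⟨f • e, ?_, fun x hx => ?_⟩
  · rw [← thompson_zero f]; exact thompson_mono _ he
  · have : f⁻¹ • x ≤ e := by simpa using (thompson_mono f⁻¹).monotone hx
    have h1 := h _ this
    rw [smul_inv_smul] at h1
    rw [h1, zpow_neg]
    field_simp

lemma SlopeOne.mul {f g : thompsonF} {k l : ℤ} (hf : SlopeOne f k) (hg : SlopeOne g l) :
    SlopeOne (f * g) (k + l) := by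
  obtain ⟨e, he, h⟩ := hf
  obtain ⟨e', he', h'⟩ := hg
  refine ⟨max e' (g⁻¹ • e), max_lt he' ?_, fun x hx => ?_⟩
  · rw [← thompson_one g⁻¹]; exact thompson_mono _ he
  · rw [ge_iff_le, max_le_iff] at hx
    have : e ≤ g • x := by simpa using (thompson_mono g).monotone hx.2
    rw [mul_smul, h _ this, h' _ hx.1, zpow_add₀ two_ne_zero, mul_assoc]

lemma SlopeOne.inv {f : thompsonF} {k : ℤ} (hf : SlopeOne f k) : SlopeOne f⁻¹ (-k) := by
  obtain ⟨e, he, h⟩ := hf
  refine ⟨f • e, ?_, fun x hx => ?_⟩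
  · rw [← thompson_one f]; exact thompson_mono _ he
  · have : e ≤ f⁻¹ • x := by simpa using (thompson_mono f⁻¹).monotone hx
    have h1 := h _ this
    rw [smul_inv_smul] at h1
    rw [h1, zpow_neg]
    field_simp

lemma zpow_slope {P : thompsonF → ℤ → Prop} (h1 : P 1 0)
    (hmul : ∀ f g k l, P f k → P g l → P (f * g) (k + l))
    (hinv : ∀ f k, P f k → P f⁻¹ (-k)) {b : thompsonF} {k : ℤ} (hb : P b k) (i : ℤ) :
    P (b ^ i) (i * k) := by
  have hnat : ∀ n : ℕ, P (b ^ n) (n * k) := by
    intro n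
    induction n with
    | zero => simpa using h1
    | succ n ih =>
      have := hmul _ _ _ _ ih hb
      rw [pow_succ]
      convert this using 1
      push_cast; ring
  obtain ⟨n, rfl | rfl⟩ := i.eq_nat_or_neg
  · rw [zpow_natCast]; exact hnat n
  · rw [zpow_neg, zpow_natCast, neg_mul]; exact hinv _ _ (hnat n)

lemma exists_dyadic_btwn {x y : ℝ} (hxy : x < y) : ∃ d, IsDyadic d ∧ x < d ∧ d < y := by
  obtain ⟨n, hn⟩ := pow_unbounded_of_one_lt (y - x)⁻¹ (one_lt_two (α := ℝ))
  have hpos : (0 : ℝ) < 2 ^ n := by positivity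
  have h1 : 1 < (y - x) * 2 ^ n := by
    rw [inv_lt_iff_one_lt_mul₀' (by linarith)] at hn
    exact hn
  refine ⟨((⌊x * 2 ^ n⌋ + 1 : ℤ) : ℝ) / 2 ^ n, ⟨_, n, rfl⟩, ?_, ?_⟩
  · rw [lt_div_iff₀ hpos]; push_cast; exact Int.lt_floor_add_one _
  · rw [div_lt_iff₀ hpos]; push_cast
    have := Int.floor_le (x * 2 ^ n)
    nlinarith

lemma thompson_hyp : Hyp thompsonF unitInterval {x | IsDyadic (x : ℝ)} where
  mono := thompson_mono
  bot_mem := ⟨0, 0, by simp⟩
  top_mem := ⟨1, 0, by simp⟩
  dense := fun x y hxy => by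
    obtain ⟨d, hd, h1, h2⟩ := exists_dyadic_btwn (show (x : ℝ) < y from hxy)
    exact ⟨⟨d, x.2.1.trans h1.le, h2.le.trans y.2.2⟩, hd, h1, h2⟩
  bump := fun p hp q hq hpq => by
    obtain ⟨b, hb⟩ := exists_bump_homeo p q
    let β : thompsonF := ⟨b, isThompsonMap_bump hp hq hpq hb⟩
    have hβ : ∀ x : unitInterval, ((β • x : unitInterval) : ℝ) = bumpFun p q x := hb
    have hpq' : (p : ℝ) < q := hpq
    have hp0 := p.2.1
    have hq1 := q.2.2
    refine ⟨β, fun x hx => ?_, fun x h1 h2 => ?_, fun hp0 f => ?_, fun hq1 f => ?_⟩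
    · apply Subtype.ext
      rw [hβ]
      exact hx.elim bumpFun_left bumpFun_right
    · show (x : ℝ) < ((β • x : unitInterval) : ℝ)
      rw [hβ]
      exact bumpFun_gt h1 h2
    · have hp' : (p : ℝ) = 0 := by rw [hp0]; rfl
      have hs : SlopeZero β 1 := by
        refine ⟨⟨p + (q - p) / 4, by constructor <;> linarith⟩, ?_, fun x hx => ?_⟩
        · show (0 : ℝ) < p + (q - p) / 4
          linarith
        · rw [hβ, bumpFun_one (by rw [hp']; exact x.2.1) hx, hp']; simp
      obtain ⟨k, e, he, hf⟩ := exists_slopeZero f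
      obtain ⟨e', he', hf'⟩ := zpow_slope (P := SlopeZero) ⟨1, zero_lt_one, fun x _ => by simp⟩
        (fun _ _ _ _ => SlopeZero.mul) (fun _ _ => SlopeZero.inv) hs k
      refine ⟨k, min e e', lt_min he he', fun x hx => Subtype.ext ?_⟩
      rw [le_min_iff] at hx
      rw [hf x hx.1, hf' x hx.2, mul_one]
    · have hq' : (q : ℝ) = 1 := by rw [hq1]; rfl
      have hs : SlopeOne β (-1) := by
        refine ⟨⟨p + (q - p) / 2, by constructor <;> linarith⟩, ?_, fun x hx => ?_⟩
        · show p + (q - p) / 2 < (1 : ℝ)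
          linarith
        · rw [hβ, bumpFun_three hx (by rw [hq']; exact x.2.2), hq']; norm_num; ring
      obtain ⟨k, e, he, hf⟩ := exists_slopeOne f
      obtain ⟨e', he', hf'⟩ := zpow_slope (P := SlopeOne) ⟨0, zero_lt_one, fun x _ => by simp⟩
        (fun _ _ _ _ => SlopeOne.mul) (fun _ _ => SlopeOne.inv) hs (-k)
      refine ⟨-k, max e e', max_lt he he', fun x hx => Subtype.ext ?_⟩
      rw [ge_iff_le, max_le_iff] at hx
      have h1 := hf x hx.1
      have h2 := hf' x hx.2
      rw [show -k * -1 = k by ring] at h2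
      linarith

theorem normal_of_isBoomerang (Δ : Subgroup thompsonF) (hΔ : IsBoomerang Δ) : Δ.Normal := by
  classical
  have := thompsonFaithful
  refine thompson_hyp.normal_of_boomerang Δ (fun d hd g => ?_) (fun d hd g => ?_)
  · obtain ⟨n, hn, h1, -⟩ := hΔ g⁻¹ {d} ∅ (by simpa using hd) (by simp)
    obtain ⟨d', hd', h⟩ := h1 d (by simp)
    refine ⟨n, hn, ?_⟩
    convert hd' using 1
    rw [h, inv_pow]; group
  · obtain ⟨n, hn, -, h2⟩ := hΔ g⁻¹ ∅ {d} (by simp) (by simpa using hd)
    refine ⟨n, hn, fun hmem => h2 d (by simp) ⟨_, hmem, ?_⟩⟩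
    rw [inv_pow]; group

end Pool.Agent.P.MP_bd6a20_al
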